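import Mathlib

/-!
Skew shapes, elementary symmetric functions in several disjoint infinite sequences of variables,
the matrices `J_{lam/mu}` and their Hadamard products.
-/

namespace Pool.Agent.H17.JTHadamard

/-- A skew shape `lam / mu` with `ℓ(lam) = n`: the `n` parts of `lam` are positive and weakly
decreasing, the parts of `mu` are weakly decreasing (possibly zero) and `mu ⊆ lam`.
Indices run over `Fin n`, so that the part called `λ_i` in the problem is `lam (i - 1)`. -/
structure SkewShape (n : ℕ) where
  lam : Fin n → ℕ
  mu : Fin n → ℕ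
  lam_antitone : Antitone lam
  mu_antitone : Antitone mu
  mu_le_lam : ∀ a, mu a ≤ lam a
  lam_pos : ∀ a, 0 < lam a

/-- The elementary symmetric function `e_m` in the `i`-th sequence of variables
`x_{i,0}, x_{i,1}, x_{i,2}, ...`, as a formal power series with integer coefficients in all the
variables `x_{i,j}`, `i : Fin k`, `j : ℕ`: the coefficient of a monomial is `1` if the monomial
is squarefree, involves only variables of the `i`-th sequence and has degree `m`,
and `0` otherwise. For `m = 0` this is `1`, for `m < 0` it is `0`. -/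
noncomputable def elemSym (k : ℕ) (i : Fin k) (m : ℤ) : MvPowerSeries (Fin k × ℕ) ℤ :=
  open Classical in
  fun d => if (∀ p, d p ≤ 1) ∧ (∀ p, d p ≠ 0 → p.1 = i) ∧ (d.degree : ℤ) = m then 1 else 0

/-- The `n × n` matrix `J_{lam/mu}` in the `i`-th sequence of variables, with `(a, b)` entry
`e_{(lam_a - a) - (mu_b - b)}(x_i)`. -/
noncomputable def jacobiTrudi {n k : ℕ} (S : SkewShape n) (i : Fin k) :
    Matrix (Fin n) (Fin n) (MvPowerSeries (Fin k × ℕ) ℤ) :=
  Matrix.of fun a b => elemSym k i (((S.lam a : ℤ) - (a : ℕ)) - ((S.mu b : ℤ) - (b : ℕ)))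

/-- The Hadamard (entrywise) product of the `k` matrices `J_{S i}(x_i)`, one for each of the `k`
disjoint sequences of variables. -/
noncomputable def hadamardJT {n k : ℕ} (S : Fin k → SkewShape n) :
    Matrix (Fin n) (Fin n) (MvPowerSeries (Fin k × ℕ) ℤ) :=
  Matrix.of fun a b => ∏ i, jacobiTrudi (S i) i a b

end Pool.Agent.H17.JTHadamard
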