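import Mathlib
import Pool.Agent.H17.JTHadamard.Defs

/-!
Proof that the determinant of a Hadamard product of matrices `J_{lam/mu}` can have a negative
coefficient.
-/

namespace Pool.Agent.H17.JTHadamard

open Finset

/-! ### Restriction to finitely many variables and evaluation at `1` -/

/-- the embedding of finitely many variables -/
def emb {k : ℕ} (N : Fin k → ℕ) : (Σ i : Fin k, Fin (N i)) ↪ Fin k × ℕ where
  toFun p := (p.1, (p.2 : ℕ))
  inj' := by
    rintro ⟨i, a⟩ ⟨j, b⟩ h
    simp only [Prod.mk.injEq] at h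
    obtain ⟨rfl, h⟩ := h
    have : a = b := Fin.ext h
    subst this
    rfl

/-- exponent vector of a squarefree monomial -/
noncomputable def expo {k : ℕ} (N : Fin k → ℕ) (i : Fin k) (s : Finset (Fin (N i))) :
    (Σ i : Fin k, Fin (N i)) →₀ ℕ :=
  ∑ j ∈ s, Finsupp.single (⟨i, j⟩ : Σ i : Fin k, Fin (N i)) 1

theorem expo_apply_same {k : ℕ} (N : Fin k → ℕ) (i : Fin k) (s : Finset (Fin (N i)))
    (j : Fin (N i)) : expo N i s ⟨i, j⟩ = if j ∈ s then 1 else 0 := by
  classical
  simp only [expo, Finsupp.coe_finsetSum, Finset.sum_apply, Finsupp.single_apply, Sigma.mk.inj_iff,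
    heq_eq_eq, true_and]
  simp

theorem expo_apply_ne {k : ℕ} (N : Fin k → ℕ) (i : Fin k) (s : Finset (Fin (N i)))
    (p : Σ i : Fin k, Fin (N i)) (hp : p.1 ≠ i) : expo N i s p = 0 := by
  classical
  simp only [expo, Finsupp.coe_finsetSum, Finset.sum_apply, Finsupp.single_apply]
  refine Finset.sum_eq_zero fun j _ => ?_
  rw [if_neg]
  rintro rfl
  exact hp rfl

theorem expo_degree {k : ℕ} (N : Fin k → ℕ) (i : Fin k) (s : Finset (Fin (N i))) :
    (expo N i s).degree = s.card := by
  classical
  simp [expo]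

/-- the elementary symmetric polynomial in the variables of the `i`-th finite sequence -/
noncomputable def Q {k : ℕ} (N : Fin k → ℕ) (i : Fin k) (m : ℤ) :
    MvPolynomial (Σ i : Fin k, Fin (N i)) ℤ :=
  ∑ s : Finset (Fin (N i)), if (s.card : ℤ) = m then MvPolynomial.monomial (expo N i s) 1 else 0

theorem killCompl_elemSym {k : ℕ} (N : Fin k → ℕ) (i : Fin k) (m : ℤ) :
    MvPowerSeries.killCompl (emb N) (elemSym k i m) = (Q N i m : MvPowerSeries _ ℤ) := by
  classical
  ext d
  rw [MvPowerSeries.coeff_killCompl, MvPolynomial.coeff_coe]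
  have h1 : MvPowerSeries.coeff (Finsupp.embDomain (emb N) d) (elemSym k i m) =
    if (∀ p, Finsupp.embDomain (emb N) d p ≤ 1) ∧
      (∀ p, Finsupp.embDomain (emb N) d p ≠ 0 → p.1 = i) ∧
      ((Finsupp.embDomain (emb N) d).degree : ℤ) = m then 1 else 0 := rfl
  have hdeg : (Finsupp.embDomain (emb N) d).degree = d.degree := by
    simp [Finsupp.degree_apply, Finsupp.support_embDomain, Finset.sum_map,
      Finsupp.embDomain_apply_self]
  rw [h1, hdeg]
  unfold Q
  rw [MvPolynomial.coeff_sum]
  by_cases h : (∀ p, d p ≤ 1) ∧ (∀ p, d p ≠ 0 → p.1 = i)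
  · obtain ⟨hle, hsupp⟩ := h
    have hd : d = expo N i (Finset.univ.filter fun j => d ⟨i, j⟩ = 1) := by
      ext p
      by_cases hp : p.1 = i
      · obtain ⟨i', j⟩ := p
        simp only at hp
        subst hp
        rw [expo_apply_same]
        simp only [Finset.mem_filter, Finset.mem_univ, true_and]
        have := hle ⟨i', j⟩
        split_ifs with h
        · exact h
        · omega
      · rw [expo_apply_ne _ _ _ _ hp]
        by_contra hne
        exact hp (hsupp p hne)
    set s₀ := (Finset.univ.filter fun j => d ⟨i, j⟩ = 1) with hs₀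
    rw [Finset.sum_eq_single s₀]
    · have hcard : d.degree = s₀.card := by
        conv_lhs => rw [hd]
        exact expo_degree N i s₀
      rw [hcard]
      by_cases hm : (s₀.card : ℤ) = m
      · rw [if_pos hm, MvPolynomial.coeff_monomial, if_pos hd.symm, if_pos]
        refine ⟨?_, ?_, hm⟩
        · intro p
          by_cases hp : p ∈ Set.range (emb N)
          · obtain ⟨q, rfl⟩ := hp
            rw [Finsupp.embDomain_apply_self]
            exact hle q
          · rw [Finsupp.embDomain_of_notMem_range _ _ _ hp]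
            exact Nat.zero_le _
        · intro p hp'
          by_cases hp : p ∈ Set.range (emb N)
          · obtain ⟨q, rfl⟩ := hp
            rw [Finsupp.embDomain_apply_self] at hp'
            exact hsupp q hp'
          · rw [Finsupp.embDomain_of_notMem_range _ _ _ hp] at hp'
            exact absurd rfl hp'
      · rw [if_neg hm, if_neg (fun h => hm h.2.2)]
        simp
    · intro s _ hs
      split_ifs with h
      · rw [MvPolynomial.coeff_monomial, if_neg]
        intro hsd
        apply hs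
        ext j
        have h1 := expo_apply_same N i s j
        rw [hsd] at h1
        rw [hs₀]
        simp only [Finset.mem_filter, Finset.mem_univ, true_and]
        rw [h1]
        split_ifs with h2 <;> simp [h2]
      · simp
    · intro h
      exact absurd (Finset.mem_univ _) h
  · rw [if_neg, Finset.sum_eq_zero]
    · intro s _
      split_ifs with hm
      · rw [MvPolynomial.coeff_monomial, if_neg]
        intro hsd
        apply h
        rw [← hsd]
        constructor
        · intro p
          by_cases hp : p.1 = i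
          · obtain ⟨i', j⟩ := p
            simp only at hp
            subst hp
            rw [expo_apply_same]
            split_ifs <;> simp
          · rw [expo_apply_ne _ _ _ _ hp]
            exact Nat.zero_le _
        · intro p hp
          by_contra hp'
          exact hp (expo_apply_ne _ _ _ _ hp')
      · simp
    · rintro ⟨ha, hb, -⟩
      apply h
      constructor
      · intro p
        have := ha (emb N p)
        rwa [Finsupp.embDomain_apply_self] at this
      · intro p hp
        have := hb (emb N p)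
        rw [Finsupp.embDomain_apply_self] at this
        exact this hp

theorem eval_Q {k : ℕ} (N : Fin k → ℕ) (i : Fin k) (m : ℤ) :
    MvPolynomial.eval (fun _ => (1 : ℤ)) (Q N i m) =
      if 0 ≤ m then ((N i).choose m.toNat : ℤ) else 0 := by
  classical
  unfold Q
  rw [map_sum]
  have : ∀ s : Finset (Fin (N i)), MvPolynomial.eval (fun _ => (1 : ℤ))
      (if (s.card : ℤ) = m then MvPolynomial.monomial (expo N i s) 1 else 0) =
      if (s.card : ℤ) = m then 1 else 0 := by
    intro s
    split_ifs with h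
    · simp [MvPolynomial.eval_monomial]
    · simp
  simp_rw [this]
  split_ifs with hm
  · rw [Finset.sum_ite]
    simp only [Finset.sum_const, nsmul_eq_mul, mul_one, mul_zero, add_zero]
    norm_cast
    have : (Finset.univ.filter fun s : Finset (Fin (N i)) => (s.card : ℤ) = m) =
        Finset.powersetCard m.toNat Finset.univ := by
      ext s
      simp only [Finset.mem_filter, Finset.mem_univ, true_and, Finset.mem_powersetCard,
        Finset.subset_univ]
      omega
    rw [this, Finset.card_powersetCard, Finset.card_univ, Fintype.card_fin]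
  · refine Finset.sum_eq_zero fun s _ => ?_
    rw [if_neg]
    intro h
    apply hm
    rw [← h]
    positivity

theorem eval_one_nonneg {τ : Type*} (P : MvPolynomial τ ℤ) (h : ∀ d, 0 ≤ P.coeff d) :
    0 ≤ MvPolynomial.eval (fun _ => (1 : ℤ)) P := by
  rw [MvPolynomial.eval_eq]
  refine Finset.sum_nonneg fun d _ => ?_
  simp only [one_pow, Finset.prod_const_one, mul_one]
  exact h d

/-- the integer matrix obtained by putting `N i` of the variables of the `i`-th sequence
equal to `1` and all the others equal to `0` -/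
def numMat {n k : ℕ} (S : Fin k → SkewShape n) (N : Fin k → ℕ) : Matrix (Fin n) (Fin n) ℤ :=
  Matrix.of fun a b => ∏ i, (fun m : ℤ => if 0 ≤ m then ((N i).choose m.toNat : ℤ) else 0)
    ((((S i).lam a : ℤ) - (a : ℕ)) - (((S i).mu b : ℤ) - (b : ℕ)))

theorem exists_coeff_neg {n k : ℕ} (S : Fin k → SkewShape n) (N : Fin k → ℕ)
    (h : (numMat S N).det < 0) :
    ∃ d : (Fin k × ℕ) →₀ ℕ, MvPowerSeries.coeff d (hadamardJT S).det < 0 := by
  classical
  by_contra hcon
  push Not at hcon
  set QM : Matrix (Fin n) (Fin n) (MvPolynomial (Σ i : Fin k, Fin (N i)) ℤ) :=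
    Matrix.of fun a b => ∏ i, Q N i ((((S i).lam a : ℤ) - (a : ℕ)) - (((S i).mu b : ℤ) - (b : ℕ)))
    with hQM
  have h1 : MvPowerSeries.killCompl (emb N) (hadamardJT S).det = (QM.det : MvPowerSeries _ ℤ) := by
    have e1 := RingHom.map_det (MvPowerSeries.killCompl (R := ℤ) (emb N)).toRingHom (hadamardJT S)
    have e2 := RingHom.map_det
      (MvPolynomial.coeToMvPowerSeries.ringHom (σ := Σ i : Fin k, Fin (N i)) (R := ℤ)) QM
    have e3 : (MvPowerSeries.killCompl (R := ℤ) (emb N)).toRingHom.mapMatrix (hadamardJT S) =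
        (MvPolynomial.coeToMvPowerSeries.ringHom (σ := Σ i : Fin k, Fin (N i))
          (R := ℤ)).mapMatrix QM := by
      ext1 a b
      simp only [RingHom.mapMatrix_apply, Matrix.map_apply, hadamardJT, hQM, Matrix.of_apply,
        map_prod, jacobiTrudi]
      refine Finset.prod_congr rfl fun i _ => ?_
      exact killCompl_elemSym N i _
    have e4 : (MvPowerSeries.killCompl (R := ℤ) (emb N)).toRingHom (hadamardJT S).det =
      MvPowerSeries.killCompl (emb N) (hadamardJT S).det := rfl
    have e5 : (MvPolynomial.coeToMvPowerSeries.ringHom (σ := Σ i : Fin k, Fin (N i))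
          (R := ℤ)) QM.det = (QM.det : MvPowerSeries _ ℤ) := rfl
    rw [← e4, ← e5, e1, e2, e3]
  have h2 : ∀ d, 0 ≤ QM.det.coeff d := by
    intro d
    rw [← MvPolynomial.coeff_coe, ← h1, MvPowerSeries.coeff_killCompl]
    exact hcon _
  have h3 := eval_one_nonneg _ h2
  rw [RingHom.map_det] at h3
  have h4 : (MvPolynomial.eval fun _ => (1 : ℤ)).mapMatrix QM = numMat S N := by
    ext a b
    simp only [RingHom.mapMatrix_apply, Matrix.map_apply, hQM, Matrix.of_apply, map_prod, numMat,
      eval_Q]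
  rw [h4] at h3
  exact absurd h (not_lt.mpr h3)

/-! ### The shapes -/

/-- A shape with `3 + r` rows: three rows given by `l`, `m` (shifted to the right by `r`), followed
by a staircase of `r` single cells in different columns. -/
def bigShape (r : ℕ) (l m : Fin 3 → ℕ) (hl : Antitone l) (hm : Antitone m) (hml : ∀ a, m a ≤ l a)
    (hpos : ∀ a, 0 < l a) : SkewShape (3 + r) where
  lam a := if h : (a : ℕ) < 3 then l ⟨a, h⟩ + r else r + 3 - a
  mu a := if h : (a : ℕ) < 3 then m ⟨a, h⟩ + r else r + 2 - a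
  lam_antitone := by
    intro a b hab
    have hab' : (a : ℕ) ≤ b := hab
    dsimp only
    split_ifs with h1 h2
    · have := hl (show (⟨a, h2⟩ : Fin 3) ≤ ⟨b, h1⟩ from hab')
      omega
    · omega
    · omega
    · omega
  mu_antitone := by
    intro a b hab
    have hab' : (a : ℕ) ≤ b := hab
    dsimp only
    split_ifs with h1 h2
    · have := hm (show (⟨a, h2⟩ : Fin 3) ≤ ⟨b, h1⟩ from hab')
      omega
    · omega
    · omega
    · omega
  mu_le_lam := by
    intro a
    split_ifs with h1
    · have := hml ⟨a, h1⟩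
      omega
    · omega
  lam_pos := by
    intro a
    split_ifs with h1
    · have := hpos ⟨a, h1⟩
      omega
    · have := a.2
      omega

/-- the value at the all-ones vector with `N` variables of `e_m` -/
def c (N : ℕ) (m : ℤ) : ℤ := if 0 ≤ m then (N.choose m.toNat : ℤ) else 0

theorem c_neg (N : ℕ) {m : ℤ} (h : m < 0) : c N m = 0 := by
  unfold c
  rw [if_neg (by omega)]

theorem c_nat (N m : ℕ) : c N (m : ℤ) = (N.choose m : ℤ) := by
  unfold c
  rw [if_pos (by positivity)]
  simp

theorem det_numMat_big {k r : ℕ} (l m : Fin k → Fin 3 → ℕ) (hl : ∀ i, Antitone (l i))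
    (hm : ∀ i, Antitone (m i)) (hml : ∀ i a, m i a ≤ l i a) (hpos : ∀ i a, 0 < l i a)
    (N : Fin k → ℕ) (hk : 0 < k) :
    (numMat (fun i => bigShape r (l i) (m i) (hl i) (hm i) (hml i) (hpos i)) N).det =
      (Matrix.of fun a b : Fin 3 =>
        ∏ i, c (N i) (((l i a : ℤ) - (a : ℕ)) - ((m i b : ℤ) - (b : ℕ)))).det *
      ∏ _j : Fin r, ∏ i, (N i : ℤ) := by
  classical
  rw [← Matrix.det_submatrix_equiv_self (finSumFinEquiv : Fin 3 ⊕ Fin r ≃ Fin (3 + r))]
  set M := numMat (fun i => bigShape r (l i) (m i) (hl i) (hm i) (hml i) (hpos i)) N with hM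
  have hblock : M.submatrix finSumFinEquiv finSumFinEquiv =
      Matrix.fromBlocks (M.submatrix (Fin.castAdd r) (Fin.castAdd r))
        (M.submatrix (Fin.castAdd r) (Fin.natAdd 3)) 0
        (M.submatrix (Fin.natAdd 3) (Fin.natAdd 3)) := by
    ext a b
    rcases a with a | a <;> rcases b with b | b
    · simp
    · simp
    · simp only [Matrix.submatrix_apply, finSumFinEquiv_apply_left, finSumFinEquiv_apply_right,
        Matrix.fromBlocks_apply₂₁, Matrix.zero_apply, hM, numMat, Matrix.of_apply]
      refine Finset.prod_eq_zero (Finset.mem_univ (⟨0, hk⟩ : Fin k)) ?_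
      apply c_neg
      simp only [bigShape, Fin.val_natAdd, Fin.val_castAdd]
      have hb := b.2
      have ha := a.2
      rw [dif_neg (by omega), dif_pos hb]
      push_cast
      omega
    · simp
  rw [hblock, Matrix.det_fromBlocks_zero₂₁]
  congr 1
  · congr 1
    ext a b
    simp only [Matrix.submatrix_apply, hM, numMat, Matrix.of_apply]
    refine Finset.prod_congr rfl fun i _ => ?_
    change c (N i) _ = _
    congr 1
    simp only [bigShape, Fin.val_castAdd]
    rw [dif_pos a.2, dif_pos b.2]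
    push_cast
    ring
  · rw [Matrix.det_of_isUpperTriangular]
    · refine Finset.prod_congr rfl fun a _ => ?_
      simp only [Matrix.submatrix_apply, hM, numMat, Matrix.of_apply]
      refine Finset.prod_congr rfl fun i _ => ?_
      change c (N i) _ = _
      have ha := a.2
      have : ((((bigShape r (l i) (m i) (hl i) (hm i) (hml i) (hpos i)).lam (Fin.natAdd 3 a) : ℕ) : ℤ)
          - ((Fin.natAdd 3 a : Fin (3 + r)) : ℕ)) -
          ((((bigShape r (l i) (m i) (hl i) (hm i) (hml i) (hpos i)).mu (Fin.natAdd 3 a) : ℕ) : ℤ)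
          - ((Fin.natAdd 3 a : Fin (3 + r)) : ℕ)) = ((1 : ℕ) : ℤ) := by
        simp only [bigShape, Fin.val_natAdd]
        rw [dif_neg (by omega), dif_neg (by omega)]
        omega
      rw [this, c_nat, Nat.choose_one_right]
    · intro a b hab
      simp only [id] at hab
      have hab' : (b : ℕ) < a := hab
      simp only [Matrix.submatrix_apply, hM, numMat, Matrix.of_apply]
      refine Finset.prod_eq_zero (Finset.mem_univ (⟨0, hk⟩ : Fin k)) ?_
      apply c_neg
      simp only [bigShape, Fin.val_natAdd]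
      have hb := b.2
      have ha := a.2
      rw [dif_neg (by omega), dif_neg (by omega)]
      omega

/-! ### The numerical counterexample and the limit argument -/

open Filter Topology

/-- the normalised central binomial ratios -/
noncomputable def ratio (s R : ℕ) : ℝ := ((2 * R).choose (R + s) : ℝ) / ((2 * R).choose R : ℝ)

theorem ratio_zero (R : ℕ) : ratio 0 R = 1 := by
  unfold ratio
  have : (0 : ℝ) < ((2 * R).choose R : ℝ) := by
    exact_mod_cast Nat.choose_pos (by omega)
  rw [Nat.add_zero, div_self this.ne']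

theorem ratio_succ (s R : ℕ) : ratio (s + 1) R = ratio s R * (((R : ℝ) - s) / (R + s + 1)) := by
  unfold ratio
  have h := Nat.choose_succ_right_eq (2 * R) (R + s)
  by_cases hs : s ≤ R
  · have h' : ((2 * R).choose (R + s + 1) : ℝ) * (R + s + 1) =
        ((2 * R).choose (R + s) : ℝ) * ((R : ℝ) - s) := by
      have : (((2 * R).choose (R + s + 1) * (R + s + 1) : ℕ) : ℝ) =
        (((2 * R).choose (R + s) * (2 * R - (R + s)) : ℕ) : ℝ) := by rw [h]
      rw [Nat.cast_mul, Nat.cast_mul, Nat.cast_sub (by omega)] at this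
      push_cast at this
      rw [this]
      ring
    have hpos : (0 : ℝ) < (R : ℝ) + s + 1 := by positivity
    have : ((2 * R).choose (R + (s + 1)) : ℝ) =
        ((2 * R).choose (R + s) : ℝ) * ((R : ℝ) - s) / (R + s + 1) := by
      rw [eq_div_iff hpos.ne']
      exact h'
    rw [this]
    ring
  · rw [Nat.choose_eq_zero_of_lt (by omega : 2 * R < R + (s + 1)),
      Nat.choose_eq_zero_of_lt (by omega : 2 * R < R + s)]
    simp

theorem tendsto_ratio (s : ℕ) : Tendsto (ratio s) atTop (𝓝 1) := by
  induction s with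
  | zero =>
    have : ratio 0 = fun _ => 1 := by
      ext R
      exact ratio_zero R
    rw [this]
    exact tendsto_const_nhds
  | succ s ih =>
    have h1 : Tendsto (fun R : ℕ => ((R : ℝ) - s) / (R + s + 1)) atTop (𝓝 1) := by
      have h2 : Tendsto (fun R : ℕ => 1 - (2 * (s : ℝ) + 1) / ((R : ℝ) + (s + 1))) atTop
          (𝓝 (1 - 0)) := by
        refine Tendsto.sub tendsto_const_nhds ?_
        refine Tendsto.div_atTop tendsto_const_nhds ?_
        exact tendsto_atTop_add_const_right _ _ tendsto_natCast_atTop_atTop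
      rw [sub_zero] at h2
      refine h2.congr fun R => ?_
      have : (0 : ℝ) < (R : ℝ) + s + 1 := by positivity
      have h3 : (R : ℝ) + (s + 1) ≠ 0 := by positivity
      field_simp
      ring
    have h4 := ih.mul h1
    rw [one_mul] at h4
    refine h4.congr fun R => ?_
    rw [ratio_succ]

/-- entry of the extra factors, normalised -/
noncomputable def u (R : ℕ) (a b : Fin 3) : ℝ :=
  (c (2 * R) ((R : ℤ) - (a : ℕ) - (0 - (b : ℕ))) : ℝ) / ((2 * R).choose R : ℝ)

theorem u_eq (R : ℕ) (hR : 2 ≤ R) (a b : Fin 3) :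
    u R a b = ratio (max ((a : ℕ) - b) ((b : ℕ) - a)) R := by
  unfold u ratio
  congr 1
  have ha := a.2
  have hb := b.2
  rcases le_total (a : ℕ) b with hab | hab
  · have : ((R : ℤ) - (a : ℕ) - (0 - (b : ℕ))) = ((R + (b - a) : ℕ) : ℤ) := by
      push_cast [hab]
      ring
    rw [this, c_nat, Nat.sub_eq_zero_of_le hab]
    simp
  · have : ((R : ℤ) - (a : ℕ) - (0 - (b : ℕ))) = ((R - (a - b) : ℕ) : ℤ) := by
      rw [Nat.cast_sub (by omega), Nat.cast_sub hab]
      ring
    rw [this, c_nat, Nat.sub_eq_zero_of_le hab]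
    simp only [Nat.zero_le, sup_of_le_left, Int.cast_natCast, Nat.cast_inj]
    rw [← Nat.choose_symm_of_eq_add]
    omega

theorem tendsto_u (a b : Fin 3) : Tendsto (fun R => u R a b) atTop (𝓝 1) := by
  refine (tendsto_ratio (max ((a : ℕ) - b) ((b : ℕ) - a))).congr' ?_
  filter_upwards [eventually_ge_atTop 2] with R hR
  rw [u_eq R hR a b]

/-- first shape, `(20,20,18)/(2)` -/
def l₁ : Fin 3 → ℕ := ![20, 20, 18]
def m₁ : Fin 3 → ℕ := ![2, 0, 0]
/-- second shape, `(22,20,20)/(2,2)` -/
def l₂ : Fin 3 → ℕ := ![22, 20, 20]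
def m₂ : Fin 3 → ℕ := ![2, 2, 0]

/-- the `3 × 3` matrix of the counterexample -/
def M₀ : Matrix (Fin 3) (Fin 3) ℤ := Matrix.of fun a b =>
  c 100 (((l₁ a : ℤ) - (a : ℕ)) - ((m₁ b : ℤ) - (b : ℕ))) *
  c 100 (((l₂ a : ℤ) - (a : ℕ)) - ((m₂ b : ℤ) - (b : ℕ)))

theorem det_M₀_neg : M₀.det < 0 := by
  decide +kernel

theorem exists_R (k : ℕ) : ∃ R : ℕ, 2 ≤ R ∧
    (Matrix.of fun a b : Fin 3 => M₀ a b *
      (c (2 * R) ((R : ℤ) - (a : ℕ) - (0 - (b : ℕ)))) ^ k : Matrix (Fin 3) (Fin 3) ℤ).det < 0 := by
  have h1 : Tendsto (fun R : ℕ => (Matrix.of fun a b : Fin 3 => (M₀ a b : ℝ) * (u R a b) ^ k :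
      Matrix (Fin 3) (Fin 3) ℝ).det) atTop
      (𝓝 (Matrix.of fun a b : Fin 3 => (M₀ a b : ℝ) * 1 ^ k : Matrix (Fin 3) (Fin 3) ℝ).det) := by
    simp only [Matrix.det_fin_three, Matrix.of_apply]
    have h : ∀ a b : Fin 3, Tendsto (fun R : ℕ => (M₀ a b : ℝ) * (u R a b) ^ k) atTop
        (𝓝 ((M₀ a b : ℝ) * 1 ^ k)) := fun a b => ((tendsto_u a b).pow k).const_mul _
    exact (((((((h 0 0).mul (h 1 1)).mul (h 2 2)).sub (((h 0 0).mul (h 1 2)).mul (h 2 1))).sub
      (((h 0 1).mul (h 1 0)).mul (h 2 2))).add (((h 0 1).mul (h 1 2)).mul (h 2 0))).add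
      (((h 0 2).mul (h 1 0)).mul (h 2 1))).sub (((h 0 2).mul (h 1 1)).mul (h 2 0))
  have h2 : (Matrix.of fun a b : Fin 3 => (M₀ a b : ℝ) * 1 ^ k : Matrix (Fin 3) (Fin 3) ℝ).det < 0 := by
    have : (Matrix.of fun a b : Fin 3 => (M₀ a b : ℝ) * 1 ^ k : Matrix (Fin 3) (Fin 3) ℝ) =
        (Int.castRingHom ℝ).mapMatrix M₀ := by
      ext a b
      simp
    rw [this, ← RingHom.map_det]
    simpa using det_M₀_neg
  have h3 := h1.eventually (gt_mem_nhds h2)
  obtain ⟨R, hR, hdet⟩ := ((eventually_ge_atTop 2).and h3).exists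
  refine ⟨R, hR, ?_⟩
  have hC : (0 : ℝ) < ((2 * R).choose R : ℝ) := by
    exact_mod_cast Nat.choose_pos (by omega)
  have h4 : ((Matrix.of fun a b : Fin 3 => M₀ a b *
      (c (2 * R) ((R : ℤ) - (a : ℕ) - (0 - (b : ℕ)))) ^ k : Matrix (Fin 3) (Fin 3) ℤ).det : ℝ) =
      (((2 * R).choose R : ℝ) ^ k) ^ 3 *
      (Matrix.of fun a b : Fin 3 => (M₀ a b : ℝ) * (u R a b) ^ k : Matrix (Fin 3) (Fin 3) ℝ).det := by
    have h5 : ∀ a b : Fin 3, (c (2 * R) ((R : ℤ) - (a : ℕ) - (0 - (b : ℕ))) : ℝ) =
        ((2 * R).choose R : ℝ) * u R a b := by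
      intro a b
      unfold u
      field_simp
    simp only [Matrix.det_fin_three, Matrix.of_apply]
    push_cast
    have h6 := h5 0 0
    have h7 := h5 0 1
    have h8 := h5 0 2
    have h9 := h5 1 0
    have h10 := h5 1 1
    have h11 := h5 1 2
    have h12 := h5 2 0
    have h13 := h5 2 1
    have h14 := h5 2 2
    simp only [h6, h7, h8, h9, h10, h11, h12, h13, h14, mul_pow]
    ring
  have h7 : ((Matrix.of fun a b : Fin 3 => M₀ a b *
      (c (2 * R) ((R : ℤ) - (a : ℕ) - (0 - (b : ℕ)))) ^ k : Matrix (Fin 3) (Fin 3) ℤ).det : ℝ) < 0 := by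
    rw [h4]
    exact mul_neg_of_pos_of_neg (by positivity) hdet
  exact_mod_cast h7

/-- the rectangular shape `(R,R,R)` -/
def lR (R : ℕ) : Fin 3 → ℕ := fun _ => R

theorem main (n k : ℕ) (hn : 3 ≤ n) (hk : 2 ≤ k) :
    ∃ (S : Fin k → SkewShape n) (d : (Fin k × ℕ) →₀ ℕ),
      MvPowerSeries.coeff d (hadamardJT S).det < 0 := by
  obtain ⟨r, rfl⟩ := Nat.exists_eq_add_of_le hn
  obtain ⟨k', rfl⟩ : ∃ k', k = k' + 2 := ⟨k - 2, by omega⟩
  obtain ⟨R, hR, hdet⟩ := exists_R k'
  let l : Fin (k' + 2) → Fin 3 → ℕ := Fin.cons l₁ (Fin.cons l₂ fun _ => lR R)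
  let m : Fin (k' + 2) → Fin 3 → ℕ := Fin.cons m₁ (Fin.cons m₂ fun _ _ => 0)
  let N : Fin (k' + 2) → ℕ := Fin.cons 100 (Fin.cons 100 fun _ => 2 * R)
  have hl : ∀ i, Antitone (l i) := by
    intro i
    refine Fin.cases ?_ (fun i => Fin.cases ?_ (fun i => ?_) i) i
    · simp only [l, Fin.cons_zero]; unfold Antitone; decide
    · simp only [l, Fin.cons_succ, Fin.cons_zero]; unfold Antitone; decide
    · simp only [l, Fin.cons_succ]; intro a b _; exact le_rfl
  have hm : ∀ i, Antitone (m i) := by
    intro i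
    refine Fin.cases ?_ (fun i => Fin.cases ?_ (fun i => ?_) i) i
    · simp only [m, Fin.cons_zero]; unfold Antitone; decide
    · simp only [m, Fin.cons_succ, Fin.cons_zero]; unfold Antitone; decide
    · simp only [m, Fin.cons_succ]; intro a b _; exact le_rfl
  have hml : ∀ i a, m i a ≤ l i a := by
    intro i
    refine Fin.cases ?_ (fun i => Fin.cases ?_ (fun i => ?_) i) i
    · simp only [m, l, Fin.cons_zero]; decide
    · simp only [m, l, Fin.cons_succ, Fin.cons_zero]; decide
    · simp only [m, l, Fin.cons_succ]; intro a; exact Nat.zero_le _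
  have hpos : ∀ i a, 0 < l i a := by
    intro i
    refine Fin.cases ?_ (fun i => Fin.cases ?_ (fun i => ?_) i) i
    · simp only [l, Fin.cons_zero]; decide
    · simp only [l, Fin.cons_succ, Fin.cons_zero]; decide
    · simp only [l, Fin.cons_succ]; intro a; unfold lR; omega
  refine ⟨fun i => bigShape r (l i) (m i) (hl i) (hm i) (hml i) (hpos i), ?_⟩
  apply exists_coeff_neg _ N
  rw [det_numMat_big l m hl hm hml hpos N (by omega)]
  have hpr : (0 : ℤ) < ∏ _j : Fin r, ∏ i, (N i : ℤ) := by
    refine Finset.prod_pos fun _ _ => Finset.prod_pos fun i _ => ?_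
    refine Fin.cases ?_ (fun i => Fin.cases ?_ (fun i => ?_) i) i
    · simp [N]
    · simp [N]
    · simp only [N, Fin.cons_succ]; push_cast; omega
  have hmat : (Matrix.of fun a b : Fin 3 =>
        ∏ i, c (N i) (((l i a : ℤ) - (a : ℕ)) - ((m i b : ℤ) - (b : ℕ)))) =
      (Matrix.of fun a b : Fin 3 => M₀ a b *
      (c (2 * R) ((R : ℤ) - (a : ℕ) - (0 - (b : ℕ)))) ^ k') := by
    ext a b
    simp only [Matrix.of_apply, Fin.prod_univ_succ, l, m, N, Fin.cons_zero, Fin.cons_succ,
      Finset.prod_const, Finset.card_univ, Fintype.card_fin, M₀, lR]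
    rw [mul_assoc]
    push_cast
    rfl
  rw [hmat]
  exact mul_neg_of_neg_of_pos hdet hpr

end Pool.Agent.H17.JTHadamard
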